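import Mathlib

set_option autoImplicit false

/-!
# Qualitative analysis of the radial equation `(r² ψ')' = r² (g(ψ) - 1/r) ψ`
-/

open MeasureTheory Set Filter Topology

namespace Pool.Agent.N261.TF

/-- radial solutions with initial value `a`; `χ = r² ψ'` -/
structure Sol (g : ℝ → ℝ) (a : ℝ) (ψ χ : ℝ → ℝ) : Prop where
  cont : Continuous ψ
  contχ : Continuous χ
  init : ψ 0 = a
  initχ : χ 0 = 0
  deriv : ∀ r, 0 < r → HasDerivAt ψ (χ r / r ^ 2) r
  derivχ : ∀ r, HasDerivAt χ (r * (r * g (ψ r) - 1) * ψ r) r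

variable {g : ℝ → ℝ} {a : ℝ} {ψ χ : ℝ → ℝ}

lemma Sol.antitone (S : Sol g a ψ χ) {R : ℝ} (h : ∀ r, 0 < r → r < R → χ r ≤ 0) :
    AntitoneOn ψ (Icc 0 R) := by
  apply antitoneOn_of_deriv_nonpos (convex_Icc 0 R) S.cont.continuousOn
  · intro r hr
    rw [interior_Icc] at hr
    exact (S.deriv r hr.1).differentiableAt.differentiableWithinAt
  · intro r hr
    rw [interior_Icc] at hr
    rw [(S.deriv r hr.1).deriv]
    exact div_nonpos_of_nonpos_of_nonneg (h r hr.1 hr.2) (by positivity)

lemma Sol.monotone (S : Sol g a ψ χ) {r₁ R : ℝ} (h0 : 0 ≤ r₁) (h : ∀ r, r₁ < r → r < R → 0 ≤ χ r) :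
    MonotoneOn ψ (Icc r₁ R) := by
  apply monotoneOn_of_deriv_nonneg (convex_Icc r₁ R) S.cont.continuousOn
  · intro r hr
    rw [interior_Icc] at hr
    exact (S.deriv r (h0.trans_lt hr.1)).differentiableAt.differentiableWithinAt
  · intro r hr
    rw [interior_Icc] at hr
    rw [(S.deriv r (h0.trans_lt hr.1)).deriv]
    have := h r hr.1 hr.2
    positivity

lemma Sol.chi_monotone (S : Sol g a ψ χ) {r₁ R : ℝ}
    (h : ∀ r, r₁ < r → r < R → 0 ≤ r * (r * g (ψ r) - 1) * ψ r) :
    MonotoneOn χ (Icc r₁ R) := by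
  apply monotoneOn_of_deriv_nonneg (convex_Icc r₁ R) S.contχ.continuousOn
  · intro r hr
    exact (S.derivχ r).differentiableAt.differentiableWithinAt
  · intro r hr
    rw [interior_Icc] at hr
    rw [(S.derivχ r).deriv]
    exact h r hr.1 hr.2

lemma Sol.chi_antitone (S : Sol g a ψ χ) {r₁ R : ℝ}
    (h : ∀ r, r₁ < r → r < R → r * (r * g (ψ r) - 1) * ψ r ≤ 0) :
    AntitoneOn χ (Icc r₁ R) := by
  apply antitoneOn_of_deriv_nonpos (convex_Icc r₁ R) S.contχ.continuousOn
  · intro r hr
    exact (S.derivχ r).differentiableAt.differentiableWithinAt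
  · intro r hr
    rw [interior_Icc] at hr
    rw [(S.derivχ r).deriv]
    exact h r hr.1 hr.2

/-- A nonnegative solution with positive initial value is positive. -/
lemma Sol.pos_of_nonneg (S : Sol g a ψ χ) (hg : Continuous g) (hg0 : g 0 = 0) (ha : 0 < a)
    (hn : ∀ r, 0 ≤ r → 0 ≤ ψ r) : ∀ r, 0 ≤ r → 0 < ψ r := by
  by_contra hcon
  push Not at hcon
  obtain ⟨r₁, hr₁, hr₁'⟩ := hcon
  -- the first zero
  set Z : Set ℝ := Icc 0 r₁ ∩ ψ ⁻¹' {0} with hZ
  have hZc : IsCompact Z := isCompact_Icc.inter_right (isClosed_singleton.preimage S.cont)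
  have hZne : Z.Nonempty := ⟨r₁, ⟨hr₁, le_rfl⟩, le_antisymm hr₁' (hn r₁ hr₁)⟩
  obtain ⟨r₀, hr₀, hmin⟩ := hZc.exists_isLeast hZne
  have hψ0 : ψ r₀ = 0 := hr₀.2
  have hr₀0 : 0 < r₀ := by
    rcases hr₀.1.1.eq_or_lt with h | h
    · rw [← h, S.init] at hψ0; linarith
    · exact h
  have hpos : ∀ r, 0 ≤ r → r < r₀ → 0 < ψ r := by
    intro r h1 h2
    rcases (hn r h1).eq_or_lt with h | h
    · exfalso
      have := hmin ⟨⟨h1, by linarith [hr₀.1.2]⟩, h.symm⟩
      linarith
    · exact h
  -- near `r₀` the factor is negative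
  have hc : ContinuousAt (fun r => r * g (ψ r) - 1) r₀ := by
    have := S.cont
    fun_prop
  have hneg : (fun r => r * g (ψ r) - 1) r₀ < 0 := by simp [hψ0, hg0]
  obtain ⟨δ, hδ, hball⟩ := Metric.eventually_nhds_iff.1 (hc.eventually (gt_mem_nhds hneg))
  set r₂ := max (r₀ - δ / 2) (r₀ / 2) with hr₂
  have h2a : r₂ < r₀ := by rw [hr₂]; exact max_lt (by linarith) (by linarith)
  have h2b : 0 < r₂ := lt_of_lt_of_le (by linarith) (le_max_right _ _)
  have h2c : r₀ - δ / 2 ≤ r₂ := le_max_left _ _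
  obtain ⟨ξ, hξ, hξ'⟩ := exists_hasDerivAt_eq_slope ψ (fun r => χ r / r ^ 2) h2a
    S.cont.continuousOn (fun r hr => S.deriv r (h2b.trans hr.1))
  have hχξ : χ ξ < 0 := by
    have h3 : χ ξ / ξ ^ 2 < 0 := by
      rw [hξ', hψ0, zero_sub]
      apply div_neg_of_neg_of_pos _ (by linarith)
      linarith [hpos r₂ h2b.le h2a]
    have h4 : 0 < ξ ^ 2 := by have := h2b.trans hξ.1; positivity
    by_contra hcc
    push Not at hcc
    have := div_nonneg hcc h4.le
    linarith
  have hχanti : AntitoneOn χ (Icc ξ r₀) := by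
    apply S.chi_antitone
    intro r h1 h2
    have h3 : r * g (ψ r) - 1 < 0 := by
      apply hball
      rw [Real.dist_eq, abs_lt]
      constructor <;> linarith [hξ.1]
    have h4 : 0 < r := by linarith [hξ.1]
    have h5 := hpos r h4.le h2
    have := mul_pos h4 h5
    nlinarith
  have hχr₀ : χ r₀ < 0 :=
    (hχanti ⟨le_rfl, hξ.2.le⟩ ⟨hξ.2.le, le_rfl⟩ hξ.2.le).trans_lt hχξ
  have hd := S.deriv r₀ hr₀0
  have hneg' : χ r₀ / r₀ ^ 2 < 0 := div_neg_of_neg_of_pos hχr₀ (by positivity)
  -- a negative derivative contradicts the minimum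
  have hmin' : IsLocalMin ψ r₀ := by
    filter_upwards [lt_mem_nhds hr₀0] with r hr
    rw [hψ0]; exact hn r hr.le
  have := hmin'.hasDerivAt_eq_zero hd
  linarith

/-- Once `χ` is positive the solution stays positive. -/
lemma Sol.pos_of_chi_pos (S : Sol g a ψ χ) (hgm : Monotone g)
    {r₁ : ℝ} (hr₁ : 0 < r₁) (hχ : 0 < χ r₁) (hpos : ∀ r, 0 ≤ r → r ≤ r₁ → 0 < ψ r) :
    ∀ r, 0 ≤ r → 0 < ψ r := by
  -- first: `r₁ g(ψ(r₁)) ≥ 1`
  have key : 1 ≤ r₁ * g (ψ r₁) := by
    by_contra hlt
    push Not at hlt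
    set Z : Set ℝ := Icc 0 r₁ ∩ {r | 1 ≤ r * g (ψ r)} with hZ
    by_cases hZne : Z.Nonempty
    · have hbdd : BddAbove Z := ⟨r₁, fun r hr => hr.1.2⟩
      set r₂ := sSup Z with hr₂
      have h2le : r₂ ≤ r₁ := csSup_le hZne fun r hr => hr.1.2
      obtain ⟨z, hz⟩ := hZne
      have hz0 : 0 < z := by
        rcases hz.1.1.eq_or_lt with h | h
        · have := hz.2; rw [← h] at this; simp at this; linarith
        · exact h
      have h2pos : 0 < r₂ := hz0.trans_le (le_csSup hbdd hz)
      have hout : ∀ r, r₂ < r → r ≤ r₁ → r * g (ψ r) < 1 := by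
        intro r h1 h2
        by_contra hcc
        push Not at hcc
        have : r ∈ Z := ⟨⟨by linarith, h2⟩, hcc⟩
        have := le_csSup hbdd this
        linarith
      -- `χ` is antitone on `[r₂, r₁]`
      have hχanti : AntitoneOn χ (Icc r₂ r₁) := by
        apply S.chi_antitone
        intro r h1 h2
        have h3 := hout r h1 h2.le
        have h4 : 0 < r := h2pos.trans h1
        have h5 := hpos r h4.le h2.le
        have := mul_pos h4 h5
        nlinarith
      -- hence `χ > 0` there and `ψ` is monotone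
      have hψm : MonotoneOn ψ (Icc r₂ r₁) := by
        apply S.monotone h2pos.le
        intro r h1 h2
        exact (hχ.trans_le (hχanti ⟨h1.le, h2.le⟩ ⟨h2le, le_rfl⟩ h2.le)).le
      -- there is a point of `Z` close to `r₂`: use monotonicity of ψ only on `[r₂, r₁]`
      -- `Z` need not be closed, so argue with points `z' ∈ Z`, `z' ≤ r₂`, `z' → r₂`
      by_cases hmem : r₂ ∈ Z
      · have h6 := hψm ⟨le_rfl, h2le⟩ ⟨h2le, le_rfl⟩ h2le
        have h7 := hgm h6
        have h8 := hmem.2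
        have h9 : 0 < g (ψ r₂) := by
          by_contra hcc
          push Not at hcc
          have : r₂ * g (ψ r₂) ≤ 0 := mul_nonpos_of_nonneg_of_nonpos h2pos.le hcc
          have h8' : 1 ≤ r₂ * g (ψ r₂) := h8
          linarith
        have h10 : r₂ * g (ψ r₂) ≤ r₁ * g (ψ r₁) := by
          apply mul_le_mul h2le h7 h9.le hr₁.le
        have h8' : 1 ≤ r₂ * g (ψ r₂) := h8
        linarith
      · -- not attained: then use a slightly larger constant argument
        have hlt2 : r₂ < r₁ := by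
          rcases h2le.eq_or_lt with h | h
          · exfalso
            -- points of Z accumulate at `r₁`, `χ > 0` near `r₁`
            have hev : ∀ᶠ r in 𝓝 r₁, 0 < χ r := S.contχ.continuousAt.eventually (lt_mem_nhds hχ)
            obtain ⟨δ, hδ, hball⟩ := Metric.eventually_nhds_iff.1 hev
            obtain ⟨z', hz', hzδ⟩ := exists_lt_of_lt_csSup ⟨z, hz⟩ (show max (r₂ - δ) (r₂/2) < sSup Z from by
              rw [← hr₂]; exact max_lt (by linarith) (by linarith))
            have hz'1 : r₂ - δ < z' := (le_max_left _ _).trans_lt hzδ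
            have hz'0 : 0 < z' := lt_of_lt_of_le (by linarith) ((le_max_right _ _).trans hzδ.le)
            have hz'2 : z' ≤ r₁ := hz'.1.2
            have hψm' : MonotoneOn ψ (Icc z' r₁) := by
              apply S.monotone hz'0.le
              intro r h1 h2
              apply le_of_lt
              apply hball
              rw [Real.dist_eq, abs_lt]
              constructor <;> linarith
            have h6 := hψm' ⟨le_rfl, hz'2⟩ ⟨hz'2, le_rfl⟩ hz'2
            have h7 := hgm h6
            have h8' : 1 ≤ z' * g (ψ z') := hz'.2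
            have h9 : 0 < g (ψ z') := by
              by_contra hcc
              push Not at hcc
              have : z' * g (ψ z') ≤ 0 := mul_nonpos_of_nonneg_of_nonpos hz'0.le hcc
              linarith
            have h10 : z' * g (ψ z') ≤ r₁ * g (ψ r₁) := mul_le_mul hz'2 h7 h9.le hr₁.le
            linarith
          · exact h
        -- `χ(r₂) > 0`
        have hχr₂ : 0 < χ r₂ := hχ.trans_le (hχanti ⟨le_rfl, h2le⟩ ⟨h2le, le_rfl⟩ h2le)
        have hev : ∀ᶠ r in 𝓝 r₂, 0 < χ r := S.contχ.continuousAt.eventually (lt_mem_nhds hχr₂)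
        obtain ⟨δ, hδ, hball⟩ := Metric.eventually_nhds_iff.1 hev
        obtain ⟨z', hz', hzδ⟩ := exists_lt_of_lt_csSup ⟨z, hz⟩ (show max (r₂ - δ) (r₂/2) < sSup Z from by
          rw [← hr₂]; exact max_lt (by linarith) (by linarith))
        have hz'1 : r₂ - δ < z' := (le_max_left _ _).trans_lt hzδ
        have hz'0 : 0 < z' := lt_of_lt_of_le (by linarith) ((le_max_right _ _).trans hzδ.le)
        have hz'2 : z' ≤ r₂ := le_csSup hbdd hz'
        have hψm' : MonotoneOn ψ (Icc z' r₁) := by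
          apply S.monotone hz'0.le
          intro r h1 h2
          rcases le_or_gt r r₂ with h3 | h3
          · apply le_of_lt
            apply hball
            rw [Real.dist_eq, abs_lt]
            constructor <;> linarith
          · exact (hχ.trans_le (hχanti ⟨h3.le, h2.le⟩ ⟨h2le, le_rfl⟩ h2.le)).le
        have hz'3 : z' ≤ r₁ := hz'2.trans h2le
        have h6 := hψm' ⟨le_rfl, hz'3⟩ ⟨hz'3, le_rfl⟩ hz'3
        have h7 := hgm h6
        have h8' : 1 ≤ z' * g (ψ z') := hz'.2
        have h9 : 0 < g (ψ z') := by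
          by_contra hcc
          push Not at hcc
          have : z' * g (ψ z') ≤ 0 := mul_nonpos_of_nonneg_of_nonpos hz'0.le hcc
          linarith
        have h10 : z' * g (ψ z') ≤ r₁ * g (ψ r₁) := mul_le_mul hz'3 h7 h9.le hr₁.le
        linarith
    · -- `Z` empty: `χ` antitone on `[0, r₁]`, so `χ r₁ ≤ 0`
      have hχanti : AntitoneOn χ (Icc 0 r₁) := by
        apply S.chi_antitone
        intro r h1 h2
        have h3 : r * g (ψ r) < 1 := by
          by_contra hcc
          push Not at hcc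
          exact hZne ⟨r, ⟨h1.le, h2.le⟩, hcc⟩
        have h5 := hpos r h1.le h2.le
        have := mul_pos h1 h5
        nlinarith
      have := hχanti ⟨le_rfl, hr₁.le⟩ ⟨hr₁.le, le_rfl⟩ hr₁.le
      rw [S.initχ] at this
      linarith
  -- second: after `r₁`, `χ` stays `≥ χ r₁ / 2`
  have hstay : ∀ r, r₁ ≤ r → χ r₁ / 2 < χ r := by
    by_contra hcon
    push Not at hcon
    obtain ⟨r₃, hr₃, hr₃'⟩ := hcon
    set Z : Set ℝ := Icc r₁ r₃ ∩ {r | χ r ≤ χ r₁ / 2} with hZ
    have hZc : IsCompact Z := isCompact_Icc.inter_right (isClosed_le S.contχ continuous_const)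
    obtain ⟨r₄, hr₄, hmin⟩ := hZc.exists_isLeast ⟨r₃, ⟨hr₃, le_rfl⟩, hr₃'⟩
    have hbef : ∀ r, r₁ ≤ r → r < r₄ → χ r₁ / 2 < χ r := by
      intro r h1 h2
      by_contra hcc
      push Not at hcc
      have := hmin ⟨⟨h1, by linarith [hr₄.1.2]⟩, hcc⟩
      linarith
    have hψm : MonotoneOn ψ (Icc r₁ r₄) := by
      apply S.monotone hr₁.le
      intro r h1 h2
      have := hbef r h1.le h2
      linarith
    have hχm : MonotoneOn χ (Icc r₁ r₄) := by
      apply S.chi_monotone
      intro r h1 h2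
      have h3 := hψm ⟨le_rfl, hr₄.1.1⟩ ⟨h1.le, h2.le⟩ h1.le
      have h4 := hgm h3
      have h5 := hpos r₁ hr₁.le le_rfl
      have h6 : 0 < ψ r := h5.trans_le h3
      have h7 : 0 < g (ψ r₁) := by
        by_contra hcc
        push Not at hcc
        have : r₁ * g (ψ r₁) ≤ 0 := mul_nonpos_of_nonneg_of_nonpos hr₁.le hcc
        linarith
      have h8 : r₁ * g (ψ r₁) ≤ r * g (ψ r) := mul_le_mul h1.le h4 h7.le (by linarith)
      have h9 : 0 ≤ r * g (ψ r) - 1 := by linarith
      have h10 : 0 < r := hr₁.trans h1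
      positivity
    have h11 := hχm ⟨le_rfl, hr₄.1.1⟩ ⟨hr₄.1.1, le_rfl⟩ hr₄.1.1
    have h12 : χ r₄ ≤ χ r₁ / 2 := hr₄.2
    linarith
  intro r hr
  rcases le_or_gt r r₁ with h | h
  · exact hpos r hr h
  · have hψm : MonotoneOn ψ (Icc r₁ r) := by
      apply S.monotone hr₁.le
      intro s h1 h2
      have := hstay s h1.le
      linarith
    have := hψm ⟨le_rfl, h.le⟩ ⟨h.le, le_rfl⟩ h.le
    exact (hpos r₁ hr₁.le le_rfl).trans_le this

end Pool.Agent.N261.TF
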