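import Mathlib

set_option autoImplicit false

/-!
# A Volterra equation for radial solutions

For a Lipschitz function `h` with `h 0 = 0` the equation
`ψ(r) = a + r ∫_0^1 (1 - τ) F(r τ) dτ`, `F(s) = s h(ψ(s)) - ψ(s)`, has a continuous solution on
`[0, ∞)` depending continuously on `a`.
-/

open MeasureTheory Set Filter Topology
open scoped NNReal BoundedContinuousFunction

namespace Pool.Agent.N261.TF

/-- the exponent of the weight -/
noncomputable def Ph (L : ℝ) (r : ℝ) : ℝ := 2 * |r| + L * r ^ 2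

lemma Ph_cont (L : ℝ) : Continuous (Ph L) := by
  unfold Ph; fun_prop

/-- the right hand side -/
noncomputable def FF (h : ℝ → ℝ) (u : ℝ → ℝ) (s : ℝ) : ℝ := s * h (u s) - u s

lemma FF_cont {h u : ℝ → ℝ} (hh : Continuous h) (hu : Continuous u) : Continuous (FF h u) := by
  unfold FF; fun_prop

/-- the integral operator -/
noncomputable def VV (h : ℝ → ℝ) (u : ℝ → ℝ) (r : ℝ) : ℝ :=
  |r| * ∫ τ in (0:ℝ)..1, (1 - τ) * FF h u (|r| * τ)

lemma VV_cont {h u : ℝ → ℝ} (hh : Continuous h) (hu : Continuous u) : Continuous (VV h u) := by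
  unfold VV
  have h1 : Continuous (fun r : ℝ => ∫ τ in (0:ℝ)..1, (1 - τ) * FF h u (|r| * τ)) := by
    apply intervalIntegral.continuous_parametric_intervalIntegral_of_continuous'
    have := FF_cont hh hu
    fun_prop
  fun_prop

lemma weight_integral (L ρ : ℝ) :
    ρ * ∫ τ in (0:ℝ)..1, (ρ * τ * L + 1) * Real.exp (2 * (ρ * τ) + L * (ρ * τ) ^ 2)
      = (Real.exp (2 * ρ + L * ρ ^ 2) - 1) / 2 := by
  have h1 : ∀ τ : ℝ, HasDerivAt (fun τ : ℝ => Real.exp (2 * (ρ * τ) + L * (ρ * τ) ^ 2) / 2)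
      (ρ * ((ρ * τ * L + 1) * Real.exp (2 * (ρ * τ) + L * (ρ * τ) ^ 2))) τ := by
    intro τ
    have h2 : HasDerivAt (fun τ : ℝ => 2 * (ρ * τ) + L * (ρ * τ) ^ 2)
        (2 * ρ + L * (2 * (ρ * τ) * ρ)) τ := by
      have h3 : HasDerivAt (fun τ : ℝ => ρ * τ) ρ τ := by
        simpa using (hasDerivAt_id τ).const_mul ρ
      have h4 := (h3.const_mul 2).add ((h3.pow 2).const_mul L)
      refine h4.congr_deriv ?_
      norm_num
    refine (h2.exp.div_const 2).congr_deriv ?_
    ring
  rw [← intervalIntegral.integral_const_mul]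
  rw [intervalIntegral.integral_eq_sub_of_hasDerivAt (fun τ _ => h1 τ)]
  · simp
    ring
  · apply Continuous.intervalIntegrable
    fun_prop

/-- the difference estimate for the integral operator -/
lemma VV_sub_le {h : ℝ → ℝ} {L : ℝ≥0} (hL : LipschitzWith L h) {u v : ℝ → ℝ} (hu : Continuous u)
    (hv : Continuous v) {D : ℝ} (hD : ∀ s, |u s - v s| ≤ D * Real.exp (Ph L s)) (r : ℝ) :
    |VV h u r - VV h v r| ≤ D / 2 * Real.exp (Ph L r) := by
  have hh := hL.continuous
  have hD0 : 0 ≤ D := by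
    have := (abs_nonneg _).trans (hD 0)
    have h2 := Real.exp_pos (Ph L 0)
    by_contra hc
    push Not at hc
    nlinarith
  set ρ := |r| with hρ
  have hρ0 : 0 ≤ ρ := abs_nonneg r
  have e1 : VV h u r - VV h v r =
      ρ * ∫ τ in (0:ℝ)..1, ((1 - τ) * FF h u (ρ * τ) - (1 - τ) * FF h v (ρ * τ)) := by
    unfold VV
    rw [intervalIntegral.integral_sub, mul_sub]
    · apply Continuous.intervalIntegrable
      have := FF_cont hh hu
      fun_prop
    · apply Continuous.intervalIntegrable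
      have := FF_cont hh hv
      fun_prop
  have e2 : ∀ τ ∈ Ioc (0:ℝ) 1, ‖(1 - τ) * FF h u (ρ * τ) - (1 - τ) * FF h v (ρ * τ)‖ ≤
      D * ((ρ * τ * L + 1) * Real.exp (2 * (ρ * τ) + L * (ρ * τ) ^ 2)) := by
    intro τ hτ
    have hs0 : 0 ≤ ρ * τ := mul_nonneg hρ0 hτ.1.le
    set s := ρ * τ with hs
    have h1 : |h (u s) - h (v s)| ≤ L * |u s - v s| := by
      have := hL.dist_le_mul (u s) (v s)
      simpa [Real.dist_eq] using this
    have h2 := hD s
    have h3 : Ph L s = 2 * s + L * s ^ 2 := by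
      unfold Ph; rw [abs_of_nonneg hs0]
    rw [h3] at h2
    rw [Real.norm_eq_abs]
    have h4 : (1 - τ) * FF h u s - (1 - τ) * FF h v s =
        (1 - τ) * (s * (h (u s) - h (v s)) - (u s - v s)) := by
      unfold FF; ring
    rw [h4, abs_mul]
    have h5 : |1 - τ| ≤ 1 := by
      rw [abs_le]; constructor <;> linarith [hτ.1, hτ.2]
    have h6 : |s * (h (u s) - h (v s)) - (u s - v s)| ≤ (s * L + 1) * |u s - v s| := by
      calc |s * (h (u s) - h (v s)) - (u s - v s)|
          ≤ |s * (h (u s) - h (v s))| + |u s - v s| := abs_sub _ _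
        _ = s * |h (u s) - h (v s)| + |u s - v s| := by rw [abs_mul, abs_of_nonneg hs0]
        _ ≤ s * (L * |u s - v s|) + |u s - v s| := by gcongr
        _ = (s * L + 1) * |u s - v s| := by ring
    have hL0 : (0:ℝ) ≤ L := L.2
    calc |1 - τ| * |s * (h (u s) - h (v s)) - (u s - v s)|
        ≤ 1 * ((s * L + 1) * |u s - v s|) := by gcongr
      _ ≤ 1 * ((s * L + 1) * (D * Real.exp (2 * s + L * s ^ 2))) := by gcongr
      _ = D * ((s * L + 1) * Real.exp (2 * s + L * s ^ 2)) := by ring
  have e3 : |∫ τ in (0:ℝ)..1, ((1 - τ) * FF h u (ρ * τ) - (1 - τ) * FF h v (ρ * τ))| ≤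
      ∫ τ in (0:ℝ)..1, D * ((ρ * τ * L + 1) * Real.exp (2 * (ρ * τ) + L * (ρ * τ) ^ 2)) := by
    have := intervalIntegral.norm_integral_le_of_norm_le (zero_le_one' ℝ)
      (Eventually.of_forall e2) (μ := volume) (by
        apply Continuous.intervalIntegrable
        fun_prop)
    simpa [Real.norm_eq_abs] using this
  rw [e1, abs_mul, abs_of_nonneg hρ0]
  calc ρ * |∫ τ in (0:ℝ)..1, ((1 - τ) * FF h u (ρ * τ) - (1 - τ) * FF h v (ρ * τ))|
      ≤ ρ * ∫ τ in (0:ℝ)..1, D * ((ρ * τ * L + 1) * Real.exp (2 * (ρ * τ) + L * (ρ * τ) ^ 2)) := by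
        gcongr
    _ = D * (ρ * ∫ τ in (0:ℝ)..1, ((ρ * τ * L + 1) * Real.exp (2 * (ρ * τ) + L * (ρ * τ) ^ 2))) := by
        rw [intervalIntegral.integral_const_mul]; ring
    _ = D * ((Real.exp (2 * ρ + L * ρ ^ 2) - 1) / 2) := by rw [weight_integral]
    _ ≤ D / 2 * Real.exp (Ph L r) := by
        have : Ph L r = 2 * ρ + L * ρ ^ 2 := by unfold Ph; rw [hρ, sq_abs]
        rw [this]
        nlinarith

/-- the bounded continuous function attached to the operator -/
noncomputable def TT (h : ℝ → ℝ) (L : ℝ≥0) (hL : LipschitzWith L h) (h0 : h 0 = 0) (a : ℝ)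
    (w : ℝ →ᵇ ℝ) : ℝ →ᵇ ℝ :=
  BoundedContinuousFunction.ofNormedAddCommGroup
    (fun r => Real.exp (-Ph L r) * (a + VV h (fun s => Real.exp (Ph L s) * w s) r))
    (by
      have h1 := VV_cont hL.continuous (u := fun s => Real.exp (Ph L s) * w s)
        (by have := Ph_cont L; have := w.continuous; fun_prop)
      have := Ph_cont L
      fun_prop)
    (|a| + ‖w‖ / 2)
    (by
      intro r
      have hu : Continuous (fun s => Real.exp (Ph L s) * w s) := by
        have := Ph_cont L; have := w.continuous; fun_prop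
      have h2 := VV_sub_le hL hu (continuous_const (y := (0:ℝ))) (D := ‖w‖) (fun s => by
        rw [sub_zero, abs_mul, abs_of_pos (Real.exp_pos _), mul_comm]
        gcongr
        exact w.norm_coe_le_norm s) r
      have h3 : VV h (fun _ => (0:ℝ)) r = 0 := by
        unfold VV FF; simp [h0]
      rw [h3, sub_zero] at h2
      have hP : 0 ≤ Ph L r := by
        unfold Ph; have := L.2; positivity
      rw [norm_mul, Real.norm_eq_abs, Real.norm_eq_abs, abs_of_pos (Real.exp_pos _)]
      calc Real.exp (-Ph L r) * |a + VV h (fun s => Real.exp (Ph L s) * w s) r|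
          ≤ Real.exp (-Ph L r) * (|a| + ‖w‖ / 2 * Real.exp (Ph L r)) := by
            gcongr
            exact (abs_add_le _ _).trans (by gcongr)
        _ = Real.exp (-Ph L r) * |a| + ‖w‖ / 2 * (Real.exp (-Ph L r) * Real.exp (Ph L r)) := by ring
        _ = Real.exp (-Ph L r) * |a| + ‖w‖ / 2 := by rw [← Real.exp_add]; simp
        _ ≤ 1 * |a| + ‖w‖ / 2 := by
            gcongr
            exact Real.exp_le_one_iff.2 (by linarith)
        _ = |a| + ‖w‖ / 2 := by ring)

lemma TT_apply (h : ℝ → ℝ) (L : ℝ≥0) (hL : LipschitzWith L h) (h0 : h 0 = 0) (a : ℝ)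
    (w : ℝ →ᵇ ℝ) (r : ℝ) : TT h L hL h0 a w r =
      Real.exp (-Ph L r) * (a + VV h (fun s => Real.exp (Ph L s) * w s) r) := rfl

lemma TT_contracting (h : ℝ → ℝ) (L : ℝ≥0) (hL : LipschitzWith L h) (h0 : h 0 = 0) (a : ℝ) :
    ContractingWith (1/2) (TT h L hL h0 a) := by
  refine ⟨by norm_num, LipschitzWith.of_dist_le_mul fun w v => ?_⟩
  rw [BoundedContinuousFunction.dist_le (by positivity)]
  intro r
  rw [TT_apply, TT_apply, Real.dist_eq]
  have hu : ∀ w : ℝ →ᵇ ℝ, Continuous (fun s => Real.exp (Ph L s) * w s) := by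
    intro w
    have := Ph_cont L; have := w.continuous; fun_prop
  have h2 := VV_sub_le hL (hu w) (hu v) (D := dist w v) (fun s => by
    rw [← mul_sub, abs_mul, abs_of_pos (Real.exp_pos _), mul_comm]
    gcongr
    have := BoundedContinuousFunction.dist_coe_le_dist (f := w) (g := v) s
    rwa [Real.dist_eq] at this) r
  have e : Real.exp (-Ph L r) * (a + VV h (fun s => Real.exp (Ph L s) * w s) r) -
      Real.exp (-Ph L r) * (a + VV h (fun s => Real.exp (Ph L s) * v s) r) =
      Real.exp (-Ph L r) * (VV h (fun s => Real.exp (Ph L s) * w s) r -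
        VV h (fun s => Real.exp (Ph L s) * v s) r) := by ring
  rw [e, abs_mul, abs_of_pos (Real.exp_pos _)]
  calc Real.exp (-Ph L r) * |VV h (fun s => Real.exp (Ph L s) * w s) r -
        VV h (fun s => Real.exp (Ph L s) * v s) r|
      ≤ Real.exp (-Ph L r) * (dist w v / 2 * Real.exp (Ph L r)) := by gcongr
    _ = dist w v / 2 * (Real.exp (-Ph L r) * Real.exp (Ph L r)) := by ring
    _ = dist w v / 2 := by rw [← Real.exp_add]; simp
    _ = ↑((1/2 : ℝ≥0)) * dist w v := by push_cast; ring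

/-- Existence of a family of solutions, continuous in the initial value. -/
theorem exists_family (h : ℝ → ℝ) (L : ℝ≥0) (hL : LipschitzWith L h) (h0 : h 0 = 0) :
    ∃ ψ : ℝ → ℝ → ℝ, (∀ a, Continuous (ψ a)) ∧ (∀ a r, ψ a r = a + VV h (ψ a) r) ∧
      ∀ a b r, |ψ a r - ψ b r| ≤ 2 * |a - b| * Real.exp (Ph L r) := by
  classical
  set W : ℝ → (ℝ →ᵇ ℝ) := fun a => ContractingWith.fixedPoint (TT h L hL h0 a)
    (TT_contracting h L hL h0 a) with hW
  have hfix : ∀ a, TT h L hL h0 a (W a) = W a := fun a =>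
    ContractingWith.fixedPoint_isFixedPt (TT_contracting h L hL h0 a)
  refine ⟨fun a r => Real.exp (Ph L r) * W a r, ?_, ?_, ?_⟩
  · intro a
    have := Ph_cont L; have := (W a).continuous; fun_prop
  · intro a r
    have h1 := congrArg (fun w : ℝ →ᵇ ℝ => w r) (hfix a)
    simp only [TT_apply] at h1
    show Real.exp (Ph L r) * W a r = _
    rw [← h1, ← mul_assoc, ← Real.exp_add]
    simp
  · intro a b r
    have h1 : dist (W a) (W b) ≤ 2 * |a - b| := by
      have h2 := (TT_contracting h L hL h0 a).dist_le_of_fixedPoint (W b) (hfix a)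
      have h3 : dist (W b) (TT h L hL h0 a (W b)) ≤ |a - b| := by
        conv_lhs => rw [← hfix b]
        have h5 : TT h L hL h0 a (TT h L hL h0 b (W b)) = TT h L hL h0 a (W b) := by rw [hfix b]
        rw [h5, BoundedContinuousFunction.dist_le (abs_nonneg _)]
        intro s
        rw [TT_apply, TT_apply, Real.dist_eq, ← mul_sub, abs_mul, abs_of_pos (Real.exp_pos _)]
        have hP : 0 ≤ Ph L s := by
          unfold Ph; have := L.2; positivity
        have h6 : b + VV h (fun s => Real.exp (Ph L s) * (W b) s) s -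
          (a + VV h (fun s => Real.exp (Ph L s) * (W b) s) s) = -(a - b) := by ring
        rw [h6, abs_neg]
        calc Real.exp (-Ph L s) * |a - b| ≤ 1 * |a - b| := by
              gcongr
              exact Real.exp_le_one_iff.2 (by linarith)
          _ = |a - b| := one_mul _
      rw [dist_comm]
      refine h2.trans ?_
      have h7 : (1 - ((1/2 : ℝ≥0) : ℝ)) = 1 / 2 := by push_cast; norm_num
      rw [h7]
      rw [div_le_iff₀ (by norm_num)]
      linarith
    show |Real.exp (Ph L r) * W a r - Real.exp (Ph L r) * W b r| ≤ _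
    rw [← mul_sub, abs_mul, abs_of_pos (Real.exp_pos _), mul_comm]
    gcongr
    have := BoundedContinuousFunction.dist_coe_le_dist (f := W a) (g := W b) r
    rw [Real.dist_eq] at this
    exact this.trans h1

end Pool.Agent.N261.TF
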