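import Mathlib
import Pool.Agent.N261.TF.Volterra
import Pool.Agent.N261.TF.Shoot

set_option autoImplicit false

/-!
# The shooting argument
-/

open MeasureTheory Set Filter Topology
open scoped NNReal

namespace Pool.Agent.N261.TF

variable {g : ℝ → ℝ} {a : ℝ} {ψ χ : ℝ → ℝ}

lemma Sol.bounds (S : Sol g a ψ χ) (hgn : ∀ s, 0 ≤ g s) {R : ℝ}
    (hχ : ∀ r, 0 < r → r < R → χ r ≤ 0) (hpos : ∀ r, 0 ≤ r → r ≤ R → 0 < ψ r) :
    ∀ r, 0 ≤ r → r ≤ R → ψ r ≤ a ∧ -(a * r ^ 2 / 2) ≤ χ r ∧ a - a * r / 2 ≤ ψ r := by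
  intro r h0 hR
  have hanti := S.antitone hχ
  have hle : ∀ s, 0 ≤ s → s ≤ R → ψ s ≤ a := by
    intro s h1 h2
    have := hanti ⟨le_rfl, h1.trans h2⟩ ⟨h1, h2⟩ h1
    rwa [S.init] at this
  have hm1 : MonotoneOn (fun s => χ s + a * s ^ 2 / 2) (Icc 0 R) := by
    have hd : ∀ s, HasDerivAt (fun s => χ s + a * s ^ 2 / 2)
        (s * (s * g (ψ s) - 1) * ψ s + a * s) s := by
      intro s
      have h1 := (S.derivχ s).add ((((hasDerivAt_id s).pow 2).const_mul a).div_const 2)
      refine h1.congr_deriv ?_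
      simp
      ring
    apply monotoneOn_of_deriv_nonneg (convex_Icc 0 R)
    · intro s _
      exact (hd s).continuousAt.continuousWithinAt
    · intro s _
      exact (hd s).differentiableAt.differentiableWithinAt
    · intro s hs
      rw [interior_Icc] at hs
      rw [(hd s).deriv]
      have h1 := hle s hs.1.le hs.2.le
      have h2 := hpos s hs.1.le hs.2.le
      have h3 := hgn (ψ s)
      have h4 : s * (s * g (ψ s) - 1) * ψ s + a * s = s ^ 2 * g (ψ s) * ψ s + s * (a - ψ s) := by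
        ring
      rw [h4]
      have h5 := hs.1
      have h6 : 0 ≤ a - ψ s := by linarith
      positivity
  have hχge : ∀ s, 0 ≤ s → s ≤ R → -(a * s ^ 2 / 2) ≤ χ s := by
    intro s h1 h2
    have h3 := hm1 ⟨le_rfl, h1.trans h2⟩ ⟨h1, h2⟩ h1
    simp only [S.initχ] at h3
    norm_num at h3
    linarith
  refine ⟨hle r h0 hR, hχge r h0 hR, ?_⟩
  have hm2 : MonotoneOn (fun s => ψ s + a * s / 2) (Icc 0 R) := by
    have hd : ∀ s, 0 < s → HasDerivAt (fun s => ψ s + a * s / 2) (χ s / s ^ 2 + a / 2) s := by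
      intro s hs
      have h1 := (S.deriv s hs).add ((((hasDerivAt_id s)).const_mul a).div_const 2)
      refine h1.congr_deriv ?_
      simp
    apply monotoneOn_of_deriv_nonneg (convex_Icc 0 R)
    · have := S.cont
      apply Continuous.continuousOn
      fun_prop
    · intro s hs
      rw [interior_Icc] at hs
      exact (hd s hs.1).differentiableAt.differentiableWithinAt
    · intro s hs
      rw [interior_Icc] at hs
      rw [(hd s hs.1).deriv]
      have h1 := hχge s hs.1.le hs.2.le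
      have h2 : 0 < s ^ 2 := by have := hs.1; positivity
      have h3 : -(a / 2) ≤ χ s / s ^ 2 := by
        rw [le_div_iff₀ h2]
        linarith
      linarith
  have h3 := hm2 ⟨le_rfl, h0.trans hR⟩ ⟨h0, hR⟩ h0
  simp only [S.init] at h3
  norm_num at h3
  linarith

/-- A solution with large initial value turns upwards. -/
lemma Sol.large (S : Sol g a ψ χ) (ha : 0 < a) (hgn : ∀ s, 0 ≤ g s) {c : ℝ} (hc : 3 < c)
    (hgc : ∀ s, a / 2 ≤ s → c ≤ g s) :
    ∃ r, 0 < r ∧ 0 < χ r ∧ ∀ s, 0 ≤ s → s ≤ r → 0 < ψ s := by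
  by_contra hcon
  push Not at hcon
  have hcon' : ∀ r, 0 < r → (∀ s, 0 ≤ s → s ≤ r → 0 < ψ s) → χ r ≤ 0 := by
    intro r hr h
    by_contra hcc
    push Not at hcc
    obtain ⟨s, h1, h2, h3⟩ := hcon r hr hcc
    exact absurd (h s h1 h2) (not_lt.2 h3)
  -- `ψ > a/4` on `[0,1]`
  have h4 : ∀ r, 0 ≤ r → r ≤ 1 → a / 4 < ψ r := by
    by_contra hcc
    push Not at hcc
    obtain ⟨r₁, h1, h2, h3⟩ := hcc
    set Z : Set ℝ := Icc 0 1 ∩ {r | ψ r ≤ a / 4} with hZ
    have hZc : IsCompact Z := isCompact_Icc.inter_right (isClosed_le S.cont continuous_const)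
    obtain ⟨r₀, hr₀, hmin⟩ := hZc.exists_isLeast ⟨r₁, ⟨h1, h2⟩, h3⟩
    have hbef : ∀ r, 0 ≤ r → r < r₀ → a / 4 < ψ r := by
      intro r h5 h6
      by_contra h7
      push Not at h7
      have := hmin ⟨⟨h5, by linarith [hr₀.1.2]⟩, h7⟩
      linarith
    have hr₀0 : 0 < r₀ := by
      rcases hr₀.1.1.eq_or_lt with h | h
      · have h5 : ψ r₀ ≤ a / 4 := hr₀.2
        rw [← h, S.init] at h5; linarith
      · exact h
    -- positivity on `[0, r₀]`
    have hge : a / 4 ≤ ψ r₀ := by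
      have hcl : r₀ ∈ closure (Ico 0 r₀) := by
        rw [closure_Ico hr₀0.ne]; exact ⟨hr₀0.le, le_rfl⟩
      have hsub : closure (Ico 0 r₀) ⊆ {r | a / 4 ≤ ψ r} :=
        closure_minimal (fun r hr => (hbef r hr.1 hr.2).le) (isClosed_le continuous_const S.cont)
      exact hsub hcl
    have hpos : ∀ r, 0 ≤ r → r ≤ r₀ → 0 < ψ r := by
      intro r h5 h6
      rcases h6.eq_or_lt with h | h
      · rw [h]; linarith
      · linarith [hbef r h5 h]
    have hχ : ∀ r, 0 < r → r < r₀ → χ r ≤ 0 := fun r h5 h6 =>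
      hcon' r h5 fun s h7 h8 => hpos s h7 (h8.trans h6.le)
    have h9 := (S.bounds hgn hχ hpos r₀ hr₀0.le le_rfl).2.2
    have h10 : ψ r₀ ≤ a / 4 := hr₀.2
    have h11 : r₀ ≤ 1 := hr₀.1.2
    nlinarith
  have hpos : ∀ r, 0 ≤ r → r ≤ 1 → 0 < ψ r := fun r h1 h2 => by linarith [h4 r h1 h2]
  have hχ : ∀ r, 0 < r → r < 1 → χ r ≤ 0 := fun r h5 h6 =>
      hcon' r h5 fun s h7 h8 => hpos s h7 (h8.trans h6.le)
  have hb := S.bounds hgn hχ hpos
  have hχ1 := hcon' 1 one_pos hpos
  have hm : MonotoneOn (fun s => χ s - (c * (a / 2) * s ^ 3 / 3 - a * s ^ 2 / 2)) (Icc 0 1) := by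
    have hd : ∀ s, HasDerivAt (fun s => χ s - (c * (a / 2) * s ^ 3 / 3 - a * s ^ 2 / 2))
        (s * (s * g (ψ s) - 1) * ψ s - (c * (a / 2) * s ^ 2 - a * s)) s := by
      intro s
      have h1 := ((((hasDerivAt_id s).pow 3).const_mul (c * (a / 2))).div_const 3)
      have h2 := ((((hasDerivAt_id s).pow 2).const_mul a).div_const 2)
      have h3 := (S.derivχ s).sub (h1.sub h2)
      refine h3.congr_deriv ?_
      simp
      ring
    apply monotoneOn_of_deriv_nonneg (convex_Icc 0 1)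
    · intro s _
      exact (hd s).continuousAt.continuousWithinAt
    · intro s _
      exact (hd s).differentiableAt.differentiableWithinAt
    · intro s hs
      rw [interior_Icc] at hs
      rw [(hd s).deriv]
      obtain ⟨h1, -, h2⟩ := hb s hs.1.le hs.2.le
      have h3 : a / 2 ≤ ψ s := by nlinarith [hs.2]
      have h5 := hgc (ψ s) h3
      have h6 : s * (s * g (ψ s) - 1) * ψ s - (c * (a / 2) * s ^ 2 - a * s) =
        s ^ 2 * (g (ψ s) * ψ s - c * (a / 2)) + s * (a - ψ s) := by ring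
      rw [h6]
      have h7 : c * (a / 2) ≤ g (ψ s) * ψ s := mul_le_mul h5 h3 (by linarith) (hgn _)
      have h8 := hs.1
      have h9 : 0 ≤ g (ψ s) * ψ s - c * (a / 2) := by linarith
      have h10 : 0 ≤ a - ψ s := by linarith
      positivity
  have h1 := hm ⟨le_rfl, zero_le_one⟩ ⟨zero_le_one, le_rfl⟩ zero_le_one
  simp only [S.initχ] at h1
  norm_num at h1
  nlinarith

/-- A solution with small initial value becomes negative. -/
lemma Sol.small (S : Sol g a ψ χ) (ha : 0 < a) (hg : Continuous g) (hg0 : g 0 = 0)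
    (hgm : Monotone g) (hsmall : g (2 * a) ≤ 1 / 160) : ∃ r, 0 < r ∧ ψ r < 0 := by
  by_contra hcon
  push Not at hcon
  have hn : ∀ r, 0 ≤ r → 0 ≤ ψ r := by
    intro r hr
    rcases hr.eq_or_lt with h | h
    · rw [← h, S.init]; exact ha.le
    · exact hcon r h
  have hpos := S.pos_of_nonneg hg hg0 ha hn
  -- `ψ < 2a` on `[0, 80]`
  have h2a : ∀ r, 0 ≤ r → r ≤ 80 → ψ r < 2 * a := by
    by_contra hcc
    push Not at hcc
    obtain ⟨r₁, h1, h2, h3⟩ := hcc
    set Z : Set ℝ := Icc 0 80 ∩ {r | 2 * a ≤ ψ r} with hZ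
    have hZc : IsCompact Z := isCompact_Icc.inter_right (isClosed_le continuous_const S.cont)
    obtain ⟨r₀, hr₀, hmin⟩ := hZc.exists_isLeast ⟨r₁, ⟨h1, h2⟩, h3⟩
    have hbef : ∀ r, 0 ≤ r → r < r₀ → ψ r < 2 * a := by
      intro r h5 h6
      by_contra h7
      push Not at h7
      have := hmin ⟨⟨h5, by linarith [hr₀.1.2]⟩, h7⟩
      linarith
    have hχa : AntitoneOn χ (Icc 0 r₀) := by
      apply S.chi_antitone
      intro r h5 h6
      have h7 := hgm (hbef r h5.le h6).le
      have h8 : r ≤ 80 := by linarith [hr₀.1.2]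
      have h9 := hpos r h5.le
      have h10 : r * g (ψ r) ≤ 80 * (1 / 160) := by
        have : g (ψ r) ≤ 1 / 160 := h7.trans hsmall
        have h11 : 0 ≤ g (ψ r) := by rw [← hg0]; exact hgm h9.le
        exact mul_le_mul h8 this h11 (by norm_num)
      have := mul_pos h5 h9
      nlinarith
    have hψa : AntitoneOn ψ (Icc 0 r₀) := by
      apply S.antitone
      intro r h5 h6
      have := hχa ⟨le_rfl, by linarith⟩ ⟨h5.le, h6.le⟩ h5.le
      rwa [S.initχ] at this
    have h5 := hψa ⟨le_rfl, hr₀.1.1⟩ ⟨hr₀.1.1, le_rfl⟩ hr₀.1.1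
    rw [S.init] at h5
    have h6 : 2 * a ≤ ψ r₀ := hr₀.2
    linarith
  -- the Sturm comparison on `[40, 80]`
  set k : ℝ := Real.pi / 40 with hk
  have hk0 : 0 < k := by have := Real.pi_pos; positivity
  have hk2 : k ^ 2 ≤ 1 / 160 := by
    have h1 := Real.pi_lt_d2
    have h2 := Real.pi_pos
    rw [hk, div_pow, div_le_iff₀ (by norm_num)]
    nlinarith
  set W : ℝ → ℝ := fun r => (ψ r + χ r / r) * Real.sin (k * (r - 40)) -
    (r * ψ r) * (k * Real.cos (k * (r - 40))) with hW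
  have hWd : ∀ r, 0 < r → HasDerivAt W
      ((r * g (ψ r) - 1 + k ^ 2 * r) * ψ r * Real.sin (k * (r - 40))) r := by
    intro r hr
    have e1 := S.deriv r hr
    have e2 := S.derivχ r
    have e3 : HasDerivAt (fun r => ψ r + χ r / r) ((r * g (ψ r) - 1) * ψ r) r := by
      have := e1.add (e2.div (hasDerivAt_id r) hr.ne')
      refine this.congr_deriv ?_
      simp only [id]
      field_simp
      ring
    have e4 : HasDerivAt (fun r : ℝ => k * (r - 40)) k r := by
      simpa using ((hasDerivAt_id r).sub_const 40).const_mul k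
    have e5 : HasDerivAt (fun r => r * ψ r) (ψ r + χ r / r) r := by
      have := (hasDerivAt_id r).mul e1
      refine this.congr_deriv ?_
      simp only [id]
      field_simp
    have e6 := (e3.mul e4.sin).sub (e5.mul (e4.cos.const_mul k))
    refine e6.congr_deriv ?_
    ring
  have hWa : AntitoneOn W (Icc 40 80) := by
    apply antitoneOn_of_deriv_nonpos (convex_Icc 40 80)
    · intro r hr
      exact (hWd r (by linarith [hr.1])).continuousAt.continuousWithinAt
    · intro r hr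
      rw [interior_Icc] at hr
      exact (hWd r (by linarith [hr.1])).differentiableAt.differentiableWithinAt
    · intro r hr
      rw [interior_Icc] at hr
      rw [(hWd r (by linarith [hr.1])).deriv]
      have h0 : 0 < r := by linarith [hr.1]
      have h1 := hpos r h0.le
      have h2 := h2a r h0.le hr.2.le
      have h3 : g (ψ r) ≤ 1 / 160 := (hgm h2.le).trans hsmall
      have h4 : r * g (ψ r) ≤ r * (1 / 160) := by gcongr
      have h5 : k ^ 2 * r ≤ (1 / 160) * r := by gcongr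
      have h6 : r * g (ψ r) - 1 + k ^ 2 * r ≤ 0 := by nlinarith [hr.2]
      have h7 : 0 ≤ Real.sin (k * (r - 40)) := by
        apply Real.sin_nonneg_of_nonneg_of_le_pi
        · have := hr.1
          have : 0 ≤ r - 40 := by linarith
          positivity
        · rw [hk, div_mul_eq_mul_div, div_le_iff₀ (by norm_num)]
          have := Real.pi_pos
          nlinarith [hr.2]
      have h8 : 0 ≤ ψ r * Real.sin (k * (r - 40)) := mul_nonneg h1.le h7
      nlinarith
  have hfin := hWa (show (40:ℝ) ∈ Icc 40 80 by norm_num) (show (80:ℝ) ∈ Icc 40 80 by norm_num)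
    (by norm_num)
  have e1 : W 40 = -(40 * ψ 40 * k) := by
    simp only [hW]
    norm_num
  have e2 : W 80 = 80 * ψ 80 * k := by
    simp only [hW]
    have : k * (80 - 40) = Real.pi := by rw [hk]; ring
    rw [this, Real.sin_pi, Real.cos_pi]
    ring
  rw [e1, e2] at hfin
  have h1 := mul_pos (hpos 80 (by norm_num)) hk0
  have h2 := mul_pos (hpos 40 (by norm_num)) hk0
  nlinarith

/-- A solution which neither becomes negative nor turns upwards is positive and decreasing. -/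
lemma Sol.neither (S : Sol g a ψ χ) (ha : 0 < a) (hg : Continuous g) (hg0 : g 0 = 0)
    (hgn : ∀ s, 0 ≤ g s)
    (hA : ¬ ∃ r, 0 < r ∧ ψ r < 0)
    (hB : ¬ ∃ r, 0 < r ∧ 0 < χ r ∧ ∀ s, 0 ≤ s → s ≤ r → 0 < ψ s) :
    (∀ r, 0 ≤ r → 0 < ψ r ∧ ψ r ≤ a) ∧ ∀ r, 0 ≤ r → χ r ≤ 0 ∧ -(a * r ^ 2 / 2) ≤ χ r := by
  push Not at hA
  have hn : ∀ r, 0 ≤ r → 0 ≤ ψ r := by
    intro r hr
    rcases hr.eq_or_lt with h | h
    · rw [← h, S.init]; exact ha.le
    · exact hA r h
  have hpos := S.pos_of_nonneg hg hg0 ha hn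
  have hχ : ∀ r, 0 < r → χ r ≤ 0 := by
    intro r hr
    by_contra hcc
    push Not at hcc
    exact hB ⟨r, hr, hcc, fun s h1 _ => hpos s h1⟩
  have hb := fun r (hr : 0 ≤ r) => S.bounds hgn (R := r) (fun s h1 _ => hχ s h1)
    (fun s h1 _ => hpos s h1) r hr le_rfl
  refine ⟨fun r hr => ⟨hpos r hr, (hb r hr).1⟩, fun r hr => ⟨?_, (hb r hr).2.1⟩⟩
  rcases hr.eq_or_lt with h | h
  · rw [← h, S.initχ]
  · exact hχ r h

end Pool.Agent.N261.TF
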