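import Mathlib
import Pool.Agent.N261.TF.Volterra
import Pool.Agent.N261.TF.Shoot
import Pool.Agent.N261.TF.Shoot2

set_option autoImplicit false

/-!
# Existence of a positive decreasing radial profile
-/

open MeasureTheory Set Filter Topology
open scoped NNReal

namespace Pool.Agent.N261.TF

/-- the truncated power -/
noncomputable def gg (α M : ℝ) (s : ℝ) : ℝ := (min (max s 0) M) ^ α

/-- the truncated nonlinearity -/
noncomputable def hh (α M : ℝ) (s : ℝ) : ℝ := gg α M s * s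

lemma gg_cont {α M : ℝ} (hα : 0 < α) : Continuous (gg α M) := by
  unfold gg
  exact ((continuous_id.max continuous_const).min continuous_const).rpow_const
    (fun _ => Or.inr hα.le)

lemma clamp_nonneg {M : ℝ} (hM : 0 < M) (s : ℝ) : 0 ≤ min (max s 0) M :=
  le_min (le_max_right _ _) hM.le

lemma gg_mono {α M : ℝ} (hα : 0 < α) (hM : 0 < M) : Monotone (gg α M) := by
  intro s t hst
  unfold gg
  exact Real.rpow_le_rpow (clamp_nonneg hM s) (min_le_min_right _ (max_le_max_right _ hst)) hα.le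

lemma gg_zero {α M : ℝ} (hα : 0 < α) (hM : 0 < M) : gg α M 0 = 0 := by
  unfold gg
  rw [max_self, min_eq_left hM.le, Real.zero_rpow hα.ne']

lemma gg_nonneg {α M : ℝ} (hM : 0 < M) (s : ℝ) : 0 ≤ gg α M s :=
  Real.rpow_nonneg (clamp_nonneg hM s) _

lemma gg_eq {α M s : ℝ} (h0 : 0 ≤ s) (hs : s ≤ M) : gg α M s = s ^ α := by
  unfold gg
  rw [max_eq_left h0, min_eq_left hs]

lemma hh_zero {α M : ℝ} : hh α M 0 = 0 := by
  unfold hh; simp

lemma hh_decomp {α M : ℝ} (hα : 0 < α) (hM : 0 < M) (s : ℝ) :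
    hh α M s = (min (max s 0) M) ^ (α + 1) + M ^ α * max (s - M) 0 := by
  unfold hh gg
  rcases le_total s 0 with h | h
  · rw [max_eq_right h, min_eq_left hM.le, Real.zero_rpow hα.ne', Real.zero_rpow (by linarith),
      max_eq_right (by linarith)]
    ring
  · rw [max_eq_left h]
    rcases le_total s M with h' | h'
    · rw [min_eq_left h', max_eq_right (by linarith), Real.rpow_add_one' h (by linarith)]
      ring
    · rw [min_eq_right h', max_eq_left (by linarith), Real.rpow_add_one' hM.le (by linarith)]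
      ring

lemma hh_lipschitz {α M : ℝ} (hα : 0 < α) (hM : 0 < M) : ∃ L : ℝ≥0, LipschitzWith L (hh α M) := by
  have h1 : LipschitzWith ((α + 1) * M ^ α).toNNReal
      (fun s : ℝ => (min (max s 0) M) ^ (α + 1)) := by
    apply LipschitzWith.of_dist_le_mul
    intro s t
    have hs := clamp_nonneg hM s
    have ht := clamp_nonneg hM t
    have hs' : min (max s 0) M ≤ M := min_le_right _ _
    have ht' : min (max t 0) M ≤ M := min_le_right _ _
    have h2 : ‖(min (max s 0) M) ^ (α + 1) - (min (max t 0) M) ^ (α + 1)‖ ≤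
        ((α + 1) * M ^ α) * ‖min (max s 0) M - min (max t 0) M‖ := by
      apply Convex.norm_image_sub_le_of_norm_hasDerivWithin_le
        (f := fun x : ℝ => x ^ (α + 1)) (f' := fun x => (α + 1) * x ^ (α + 1 - 1)) (s := Icc 0 M)
      · intro x _
        exact (Real.hasDerivAt_rpow_const (Or.inr (by linarith))).hasDerivWithinAt
      · intro x hx
        rw [norm_mul, Real.norm_of_nonneg (by linarith), add_sub_cancel_right,
          Real.norm_of_nonneg (Real.rpow_nonneg hx.1 _)]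
        have := Real.rpow_le_rpow hx.1 hx.2 hα.le
        gcongr
      · exact convex_Icc 0 M
      · exact ⟨ht, ht'⟩
      · exact ⟨hs, hs'⟩
    rw [Real.dist_eq, ← Real.norm_eq_abs]
    refine h2.trans ?_
    have h3 : (0:ℝ) ≤ (α + 1) * M ^ α := by
      have := Real.rpow_nonneg hM.le α
      positivity
    rw [Real.coe_toNNReal _ h3]
    gcongr
    rw [Real.norm_eq_abs, Real.dist_eq]
    have h4 : |min (max s 0) M - min (max t 0) M| ≤ |max s 0 - max t 0| := by
      have := abs_min_sub_min_le_max (max s 0) M (max t 0) M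
      simpa using this
    have h5 : |max s 0 - max t 0| ≤ |s - t| := by
      have := abs_max_sub_max_le_max s 0 t 0
      simpa using this
    exact h4.trans h5
  have h2 : LipschitzWith (M ^ α).toNNReal (fun s : ℝ => M ^ α * max (s - M) 0) := by
    apply LipschitzWith.of_dist_le_mul
    intro s t
    have h3 : (0:ℝ) ≤ M ^ α := Real.rpow_nonneg hM.le α
    rw [Real.dist_eq, ← mul_sub, abs_mul, abs_of_nonneg h3, Real.coe_toNNReal _ h3, Real.dist_eq]
    have h5 := abs_max_sub_max_le_max (s - M) 0 (t - M) 0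
    have h6 : |max (s - M) 0 - max (t - M) 0| ≤ |s - t| := by simpa using h5
    exact mul_le_mul_of_nonneg_left h6 h3
  have h3 : hh α M = fun s : ℝ => (min (max s 0) M) ^ (α + 1) + M ^ α * max (s - M) 0 := by
    ext s
    exact hh_decomp hα hM s
  rw [h3]
  exact ⟨_, h1.add h2⟩

lemma VV_eq {h u : ℝ → ℝ} (hh : Continuous h) (hu : Continuous u) {r : ℝ} (hr : 0 < r) :
    VV h u r = (∫ s in (0:ℝ)..r, FF h u s) - r⁻¹ * ∫ s in (0:ℝ)..r, s * FF h u s := by
  have hF := FF_cont hh hu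
  unfold VV
  rw [abs_of_pos hr]
  have e1 : (∫ τ in (0:ℝ)..1, (1 - τ) * FF h u (r * τ)) =
      (∫ τ in (0:ℝ)..1, FF h u (r * τ)) - ∫ τ in (0:ℝ)..1, τ * FF h u (r * τ) := by
    rw [← intervalIntegral.integral_sub]
    · congr 1
      ext τ
      ring
    · apply Continuous.intervalIntegrable; fun_prop
    · apply Continuous.intervalIntegrable; fun_prop
  have e2 := intervalIntegral.mul_integral_comp_mul_left (f := FF h u) (a := 0) (b := 1) r
  have e3 := intervalIntegral.mul_integral_comp_mul_left (f := fun s => s * FF h u s)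
    (a := 0) (b := 1) r
  have e4 : (∫ τ in (0:ℝ)..1, (r * τ) * FF h u (r * τ)) =
      r * ∫ τ in (0:ℝ)..1, τ * FF h u (r * τ) := by
    rw [← intervalIntegral.integral_const_mul]
    congr 1
    ext τ
    ring
  rw [e4] at e3
  simp only [mul_zero, mul_one] at e2 e3
  rw [e1, mul_sub, e2, ← e3]
  field_simp

lemma sol_of_volterra {α M : ℝ} (hα : 0 < α) {a : ℝ} {ψ : ℝ → ℝ} (hc : Continuous ψ)
    (heq : ∀ r, ψ r = a + VV (hh α M) ψ r) :
    Sol (gg α M) a ψ (fun r => ∫ s in (0:ℝ)..r, s * FF (hh α M) ψ s) := by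
  have hhc : Continuous (hh α M) := by
    unfold hh; exact (gg_cont hα).mul continuous_id
  have hF := FF_cont hhc hc
  have hsF : Continuous (fun s => s * FF (hh α M) ψ s) := by fun_prop
  refine ⟨hc, ?_, ?_, ?_, ?_, ?_⟩
  · exact continuous_iff_continuousAt.2 fun r =>
      (hsF.integral_hasStrictDerivAt 0 r).hasDerivAt.continuousAt
  · rw [heq 0]
    unfold VV
    simp
  · simp
  · intro r hr
    have h1 : ψ =ᶠ[𝓝 r] fun r => a + ((∫ s in (0:ℝ)..r, FF (hh α M) ψ s) -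
        r⁻¹ * ∫ s in (0:ℝ)..r, s * FF (hh α M) ψ s) := by
      filter_upwards [lt_mem_nhds hr] with s hs
      rw [← VV_eq hhc hc hs]
      exact heq s
    have h2 := (hF.integral_hasStrictDerivAt 0 r).hasDerivAt
    have h3 := (hsF.integral_hasStrictDerivAt 0 r).hasDerivAt
    have h4 := (hasDerivAt_inv hr.ne').mul h3
    have h5 := (h2.sub h4).const_add a
    refine (h5.congr_of_eventuallyEq h1).congr_deriv ?_
    field_simp
    ring
  · intro r
    refine (hsF.integral_hasStrictDerivAt 0 r).hasDerivAt.congr_deriv ?_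
    unfold FF hh
    ring

/-- **Existence of the profile.** -/
theorem exists_profile {α : ℝ} (hα : 0 < α) : ∃ (a : ℝ) (ψ χ : ℝ → ℝ), 0 < a ∧
    Continuous ψ ∧ Continuous χ ∧ ψ 0 = a ∧ χ 0 = 0 ∧
    (∀ r, 0 < r → HasDerivAt ψ (χ r / r ^ 2) r) ∧
    (∀ r, 0 < r → HasDerivAt χ (r ^ 2 * ((ψ r) ^ α - r⁻¹) * ψ r) r) ∧
    (∀ r, 0 ≤ r → 0 < ψ r ∧ ψ r ≤ a) ∧ ∀ r, 0 ≤ r → χ r ≤ 0 ∧ -(a * r ^ 2 / 2) ≤ χ r := by
  -- the truncation level
  obtain ⟨M, hM, hM3⟩ : ∃ M : ℝ, 0 < M ∧ (4:ℝ) ≤ (M / 2) ^ α := by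
    refine ⟨2 * (4:ℝ) ^ (1 / α), by positivity, ?_⟩
    rw [mul_div_cancel_left₀ _ (two_ne_zero), ← Real.rpow_mul (by norm_num)]
    rw [one_div_mul_cancel hα.ne', Real.rpow_one]
  obtain ⟨L, hL⟩ := hh_lipschitz hα hM
  obtain ⟨ψ, hψc, hψe, hψd⟩ := exists_family (hh α M) L hL hh_zero
  have hS : ∀ a, Sol (gg α M) a (ψ a) (fun r => ∫ s in (0:ℝ)..r, s * FF (hh α M) (ψ a) s) :=
    fun a => sol_of_volterra hα (hψc a) (hψe a)
  have hgc := gg_cont (M := M) hα
  have hg0 := gg_zero hα hM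
  have hgm := gg_mono hα hM
  have hgn := gg_nonneg (α := α) hM
  have hhc : Continuous (hh α M) := hL.continuous
  -- joint continuity
  have hjc : Continuous (fun p : ℝ × ℝ => ψ p.1 p.2) := by
    rw [continuous_iff_continuousAt]
    rintro ⟨a, r⟩
    have h1 : Tendsto (fun p : ℝ × ℝ => 2 * |p.1 - a| * Real.exp (Ph L p.2)) (𝓝 (a, r)) (𝓝 0) := by
      have hP := Ph_cont L
      have h2 : Continuous (fun p : ℝ × ℝ => 2 * |p.1 - a| * Real.exp (Ph L p.2)) := by fun_prop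
      have h3 := h2.tendsto (a, r)
      simpa using h3
    have h2 : Tendsto (fun p : ℝ × ℝ => ψ a p.2) (𝓝 (a, r)) (𝓝 (ψ a r)) :=
      ((hψc a).comp continuous_snd).tendsto (a, r)
    have h3 : Tendsto (fun p : ℝ × ℝ => ψ p.1 p.2 - ψ a p.2) (𝓝 (a, r)) (𝓝 0) := by
      apply squeeze_zero_norm _ h1
      intro p
      exact hψd p.1 a p.2
    have h4 := h3.add h2
    simpa [ContinuousAt] using h4
  set χ : ℝ → ℝ → ℝ := fun a r => ∫ s in (0:ℝ)..r, s * FF (hh α M) (ψ a) s with hχ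
  have hχc : ∀ r, Continuous (fun a => χ a r) := by
    intro r
    apply intervalIntegral.continuous_parametric_intervalIntegral_of_continuous'
    have e : (Function.uncurry fun a s => s * FF (hh α M) (ψ a) s) =
        fun p : ℝ × ℝ => p.2 * (p.2 * hh α M (ψ p.1 p.2) - ψ p.1 p.2) := by
      ext p
      rfl
    rw [e]
    fun_prop
  set A : Set ℝ := {a | ∃ r, 0 < r ∧ ψ a r < 0} with hA
  set B : Set ℝ := {a | ∃ r, 0 < r ∧ 0 < χ a r ∧ ∀ s, 0 ≤ s → s ≤ r → 0 < ψ a s} with hB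
  have hAo : IsOpen A := by
    rw [isOpen_iff_mem_nhds]
    rintro a ⟨r, hr, h⟩
    have h1 : Continuous (fun a => ψ a r) := hjc.comp (continuous_id.prodMk continuous_const)
    filter_upwards [h1.continuousAt.eventually (gt_mem_nhds h)] with b hb
    exact ⟨r, hr, hb⟩
  have hBo : IsOpen B := by
    rw [isOpen_iff_mem_nhds]
    rintro a ⟨r, hr, h1, h2⟩
    have h3 : ∀ᶠ b in 𝓝 a, ∀ s ∈ Icc 0 r, 0 < ψ b s := by
      apply isCompact_Icc.eventually_forall_of_forall_eventually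
      intro s hs
      exact hjc.continuousAt.eventually (lt_mem_nhds (h2 s hs.1 hs.2))
    filter_upwards [(hχc r).continuousAt.eventually (lt_mem_nhds h1), h3] with b h4 h5
    exact ⟨r, hr, h4, fun s hs1 hs2 => h5 s ⟨hs1, hs2⟩⟩
  have hdisj : ∀ a, a ∈ A → a ∈ B → False := by
    rintro a ⟨r, hr, h1⟩ ⟨r₁, hr₁, h2, h3⟩
    have := (hS a).pos_of_chi_pos hgm hr₁ h2 h3 r hr.le
    linarith
  -- small initial values are in `A`
  obtain ⟨a₀, ha₀, ha₀M, ha₀A⟩ : ∃ a₀, 0 < a₀ ∧ a₀ < M ∧ a₀ ∈ A := by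
    have h1 : Tendsto (fun a => gg α M (2 * a)) (𝓝 0) (𝓝 0) := by
      have h2 : Continuous (fun a => gg α M (2 * a)) := by fun_prop
      have h3 := h2.tendsto 0
      simpa [hg0] using h3
    have h2 : ∀ᶠ a in 𝓝[>] (0:ℝ), gg α M (2 * a) < 1 / 160 :=
      (h1.eventually (gt_mem_nhds (by norm_num))).filter_mono nhdsWithin_le_nhds
    have h3 : ∀ᶠ a in 𝓝[>] (0:ℝ), a < M :=
      (gt_mem_nhds hM).filter_mono nhdsWithin_le_nhds
    obtain ⟨a, h4, h5, h6⟩ := (h2.and (h3.and self_mem_nhdsWithin)).exists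
    exact ⟨a, h6, h5, (hS a).small h6 hgc hg0 hgm h4.le⟩
  -- `M` is in `B`
  have hMB : M ∈ B := by
    apply (hS M).large hM hgn (c := 4) (by norm_num)
    intro s hs
    refine hM3.trans ?_
    unfold gg
    apply Real.rpow_le_rpow (by positivity) _ hα.le
    exact le_min (hs.trans (le_max_left _ _)) (by linarith)
  -- connectedness
  obtain ⟨a, haI, hna⟩ : ∃ a ∈ Icc a₀ M, a ∉ A ∪ B := by
    by_contra hcon
    push Not at hcon
    have h1 := isPreconnected_Icc (a := a₀) (b := M) A B hAo hBo hcon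
      ⟨a₀, ⟨le_rfl, ha₀M.le⟩, ha₀A⟩ ⟨M, ⟨ha₀M.le, le_rfl⟩, hMB⟩
    obtain ⟨b, _, hb1, hb2⟩ := h1
    exact hdisj b hb1 hb2
  have ha : 0 < a := ha₀.trans_le haI.1
  have hnA : ¬ ∃ r, 0 < r ∧ ψ a r < 0 := fun h => hna (Or.inl h)
  have hnB : ¬ ∃ r, 0 < r ∧ 0 < χ a r ∧ ∀ s, 0 ≤ s → s ≤ r → 0 < ψ a s := fun h => hna (Or.inr h)
  obtain ⟨h1, h2⟩ := (hS a).neither ha hgc hg0 hgn hnA hnB
  refine ⟨a, ψ a, χ a, ha, hψc a, (hS a).contχ, (hS a).init, (hS a).initχ, (hS a).deriv, ?_, h1, h2⟩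
  intro r hr
  refine ((hS a).derivχ r).congr_deriv ?_
  have h3 := h1 r hr.le
  rw [gg_eq h3.1.le (h3.2.trans haI.2)]
  field_simp

end Pool.Agent.N261.TF
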