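import Mathlib
import Pool.Agent.N261.TF.Exist

set_option autoImplicit false

/-!
# The radial function in three dimensions and its weak equation
-/

open MeasureTheory Set Filter Topology Metric
open scoped NNReal ENNReal ContDiff

namespace Pool.Agent.N261.TF

theorem polarF {F : Type*} [NormedAddCommGroup F] [InnerProductSpace ℝ F] [FiniteDimensional ℝ F]
    [MeasurableSpace F] [BorelSpace F] [Nontrivial F] (g : F → ℝ) (hg : Integrable g) :
    ∫ y : F, g y = ∫ v : sphere (0 : F) 1,
      (∫ r in Ioi (0:ℝ), r ^ (Module.finrank ℝ F - 1) * g (r • (v : F)))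
        ∂((volume : Measure F).toSphere) := by
  have hmp := (volume : Measure F).measurePreserving_homeomorphUnitSphereProd
  have hemb := (homeomorphUnitSphereProd F).measurableEmbedding
  have hcomp : ∀ x : ({(0 : F)}ᶜ : Set F),
      (fun p : sphere (0 : F) 1 × Ioi (0:ℝ) => g ((p.2 : ℝ) • (p.1 : F)))
        (homeomorphUnitSphereProd F x) = g x := by
    intro x
    show g _ = g x
    congr 1
    have h1 := (homeomorphUnitSphereProd F).symm_apply_apply x
    have h2 := congrArg Subtype.val h1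
    rw [homeomorphUnitSphereProd_symm_apply_coe] at h2
    exact h2
  have hint : Integrable (fun p : sphere (0 : F) 1 × Ioi (0:ℝ) => g ((p.2 : ℝ) • (p.1 : F)))
      ((volume : Measure F).toSphere.prod
        (Measure.volumeIoiPow (Module.finrank ℝ F - 1))) := by
    rw [← hmp.integrable_comp_emb hemb]
    have h1 : IntegrableOn g ({(0 : F)}ᶜ : Set F) := hg.integrableOn
    rw [integrableOn_iff_comap_subtypeVal (measurableSet_singleton _).compl] at h1
    refine h1.congr (Filter.Eventually.of_forall fun x => ?_)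
    exact (hcomp x).symm
  calc ∫ y : F, g y = ∫ x : ({(0 : F)}ᶜ : Set F), g x ∂((volume : Measure F).comap (↑)) := by
        rw [integral_subtype_comap (measurableSet_singleton _).compl g,
          restrict_compl_singleton]
    _ = ∫ x : ({(0 : F)}ᶜ : Set F),
        (fun p : sphere (0 : F) 1 × Ioi (0:ℝ) => g ((p.2 : ℝ) • (p.1 : F)))
          (homeomorphUnitSphereProd F x) ∂((volume : Measure F).comap (↑)) := by
        congr 1
        funext x
        exact (hcomp x).symm
    _ = ∫ p : sphere (0 : F) 1 × Ioi (0:ℝ), g ((p.2 : ℝ) • (p.1 : F))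
          ∂((volume : Measure F).toSphere.prod
            (Measure.volumeIoiPow (Module.finrank ℝ F - 1))) :=
        hmp.integral_comp hemb (fun p : sphere (0 : F) 1 × Ioi (0:ℝ) => g ((p.2 : ℝ) • (p.1 : F)))
    _ = ∫ v : sphere (0 : F) 1, ∫ r : Ioi (0:ℝ), g ((r : ℝ) • (v : F))
          ∂(Measure.volumeIoiPow (Module.finrank ℝ F - 1))
          ∂((volume : Measure F).toSphere) := integral_prod _ hint
    _ = _ := by
        congr 1
        funext v
        simp only [Measure.volumeIoiPow, ENNReal.ofReal]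
        rw [integral_withDensity_eq_integral_smul,
          integral_subtype_comap measurableSet_Ioi
            fun a ↦ Real.toNNReal (a ^ (Module.finrank ℝ F - 1)) • g (a • (v : F)),
          setIntegral_congr_fun measurableSet_Ioi fun x hx ↦ ?_]
        · rw [NNReal.smul_def, Real.coe_toNNReal _ (pow_nonneg (le_of_lt hx) _), smul_eq_mul]
        · exact (measurable_subtype_coe.pow_const _).real_toNNReal

/-- three-dimensional Euclidean space -/
abbrev E3 := EuclideanSpace ℝ (Fin 3)

/-- the gradient field of a radial function with `r² ψ' = χ` -/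
noncomputable def GG (χ : ℝ → ℝ) (x : E3) : E3 := (χ ‖x‖ / ‖x‖ ^ 3) • x

lemma GG_meas {χ : ℝ → ℝ} (hχ : Continuous χ) : Measurable (GG χ) := by
  unfold GG
  have := hχ.measurable
  fun_prop

lemma GG_bound {χ : ℝ → ℝ} {a : ℝ} (ha : 0 ≤ a) (h : ∀ r, 0 ≤ r → χ r ≤ 0 ∧ -(a * r ^ 2 / 2) ≤ χ r)
    (x : E3) : ‖GG χ x‖ ≤ a / 2 := by
  unfold GG
  rcases eq_or_ne x 0 with hx | hx
  · simp [hx]; positivity
  · have hr : 0 < ‖x‖ := norm_pos_iff.2 hx
    obtain ⟨h1, h2⟩ := h ‖x‖ hr.le
    rw [norm_smul, norm_div, Real.norm_eq_abs, abs_of_nonpos h1, norm_pow, norm_norm]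
    rw [div_mul_eq_mul_div, div_le_iff₀ (by positivity)]
    nlinarith [pow_pos hr 3, pow_pos hr 2]

lemma hasDerivAt_norm_line {x e : E3} (hx : x ≠ 0) :
    HasDerivAt (fun t : ℝ => ‖x + t • e‖) (inner ℝ x e / ‖x‖) 0 := by
  have h1 : HasDerivAt (fun t : ℝ => x + t • e) e 0 := by
    simpa using ((hasDerivAt_id (0:ℝ)).smul_const e).const_add x
  have h2 := h1.norm_sq
  have h3 : (fun t : ℝ => ‖x + t • e‖) = fun t : ℝ => Real.sqrt (‖x + t • e‖ ^ 2) := by
    ext t
    rw [Real.sqrt_sq (norm_nonneg _)]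
  rw [h3]
  have hr : 0 < ‖x‖ := norm_pos_iff.2 hx
  have h4 := h2.sqrt (by simp; exact hx)
  refine h4.congr_deriv ?_
  simp only [zero_smul, add_zero]
  rw [Real.sqrt_sq (norm_nonneg _)]
  field_simp

section

variable {α a : ℝ} {ψ χ : ℝ → ℝ}

lemma lipschitz_radial (ha : 0 < a) (hc : Continuous ψ)
    (hd : ∀ r, 0 < r → HasDerivAt ψ (χ r / r ^ 2) r)
    (hχ : ∀ r, 0 ≤ r → χ r ≤ 0 ∧ -(a * r ^ 2 / 2) ≤ χ r) :
    LipschitzWith (a / 2).toNNReal (fun x : E3 => ψ ‖x‖) := by
  have h1 : ∀ r s : ℝ, 0 ≤ r → r ≤ s → |ψ s - ψ r| ≤ a / 2 * (s - r) := by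
    intro r s hr hrs
    rcases hrs.eq_or_lt with h | h
    · rw [h]; simp
    · obtain ⟨ξ, hξ, hξ'⟩ := exists_hasDerivAt_eq_slope ψ (fun r => χ r / r ^ 2) h
        hc.continuousOn (fun t ht => hd t (hr.trans_lt ht.1))
      have hξ0 : 0 < ξ := hr.trans_lt hξ.1
      obtain ⟨h2, h3⟩ := hχ ξ hξ0.le
      have h4 : |χ ξ / ξ ^ 2| ≤ a / 2 := by
        rw [abs_div, abs_of_nonpos h2, abs_of_pos (by positivity : (0:ℝ) < ξ ^ 2),
          div_le_iff₀ (by positivity)]
        linarith
      have h5 : ψ s - ψ r = χ ξ / ξ ^ 2 * (s - r) := by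
        rw [hξ']
        have : s - r ≠ 0 := by linarith
        field_simp
      rw [h5, abs_mul, abs_of_pos (by linarith : (0:ℝ) < s - r)]
      gcongr
  apply LipschitzWith.of_dist_le_mul
  intro x y
  rw [Real.coe_toNNReal _ (by positivity), Real.dist_eq]
  have h2 : |ψ ‖x‖ - ψ ‖y‖| ≤ a / 2 * |‖x‖ - ‖y‖| := by
    rcases le_total ‖x‖ ‖y‖ with h | h
    · have := h1 ‖x‖ ‖y‖ (norm_nonneg _) h
      rw [abs_sub_comm, abs_of_nonpos (by linarith : ‖x‖ - ‖y‖ ≤ 0)]
      linarith
    · have := h1 ‖y‖ ‖x‖ (norm_nonneg _) h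
      rw [abs_of_nonneg (by linarith : 0 ≤ ‖x‖ - ‖y‖)]
      linarith
  refine h2.trans ?_
  gcongr
  rw [dist_eq_norm]
  exact abs_norm_sub_norm_le x y

lemma weak_gradient (ha : 0 < a) (hc : Continuous ψ)
    (hd : ∀ r, 0 < r → HasDerivAt ψ (χ r / r ^ 2) r)
    (hχ : ∀ r, 0 ≤ r → χ r ≤ 0 ∧ -(a * r ^ 2 / 2) ≤ χ r)
    (η : E3 → ℝ) (hη : ContDiff ℝ ∞ η) (hηc : HasCompactSupport η) (e : E3) :
    ∫ x, ψ ‖x‖ * fderiv ℝ η x e = - ∫ x, inner ℝ (GG χ x) e * η x := by
  have hL := lipschitz_radial ha hc hd hχ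
  obtain ⟨D, hD⟩ : ∃ D, LipschitzWith D η :=
    ContDiff.lipschitzWith_of_hasCompactSupport hηc hη (by simp)
  have h1 := hL.integral_lineDeriv_mul_eq (μ := volume) hD hηc e
  have h2 : ∀ x, lineDeriv ℝ η x (-e) = - fderiv ℝ η x e := by
    intro x
    rw [((hη.differentiable (by simp)).differentiableAt).lineDeriv_eq_fderiv]
    simp
  have h3 : ∀ᵐ x : E3, lineDeriv ℝ (fun x : E3 => ψ ‖x‖) x e = inner ℝ (GG χ x) e := by
    have h4 : ∀ᵐ x : E3, x ≠ 0 := by
      have : ({(0 : E3)}ᶜ : Set E3) ∈ ae volume := compl_mem_ae_iff.2 (measure_singleton 0)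
      exact this
    filter_upwards [h4] with x hx
    have hr : 0 < ‖x‖ := norm_pos_iff.2 hx
    have h5 := hasDerivAt_norm_line (x := x) (e := e) hx
    have h6 : HasDerivAt ψ (χ ‖x‖ / ‖x‖ ^ 2) ((fun t : ℝ => ‖x + t • e‖) 0) := by
      simpa using hd ‖x‖ hr
    have h7 := HasDerivAt.comp (0:ℝ) h6 h5
    have h8 : HasLineDerivAt ℝ (fun x : E3 => ψ ‖x‖) (χ ‖x‖ / ‖x‖ ^ 2 * (inner ℝ x e / ‖x‖)) x e := h7
    rw [h8.lineDeriv]
    unfold GG
    rw [real_inner_smul_left]
    field_simp
  have h5 : ∫ x, lineDeriv ℝ (fun x : E3 => ψ ‖x‖) x e * η x = ∫ x, inner ℝ (GG χ x) e * η x := by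
    apply integral_congr_ae
    filter_upwards [h3] with x hx
    rw [hx]
  rw [h5] at h1
  rw [h1, ← integral_neg]
  congr 1
  ext x
  rw [h2]
  ring

lemma integrable_inv_norm_mul {η : E3 → ℝ} (hη : Continuous η) (hηc : HasCompactSupport η) :
    Integrable (fun x : E3 => |η x| * ‖x‖⁻¹) := by
  obtain ⟨R, hR⟩ := hηc.isCompact.isBounded.subset_ball 0
  obtain ⟨C, hC⟩ := hη.bounded_above_of_compact_support hηc
  have hI : IntegrableOn (fun x : E3 => (fun r : ℝ => r⁻¹) ‖x‖) (ball (0 : E3) R) volume := by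
    rw [integrableOn_fun_norm_addHaar]
    have h1 : IntegrableOn (fun y : ℝ => y) (Ioo 0 R) :=
      (continuous_id.integrableOn_Icc (a := 0) (b := R)).mono_set Ioo_subset_Icc_self
    refine h1.congr_fun ?_ measurableSet_Ioo
    intro y hy
    simp only [finrank_euclideanSpace, Fintype.card_fin, smul_eq_mul]
    have : y ≠ 0 := hy.1.ne'
    field_simp
  have h2 : IntegrableOn (fun x : E3 => |η x| * ‖x‖⁻¹) (ball (0 : E3) R) := by
    refine Integrable.mono' (hI.const_mul C) ?_ ?_
    · apply Measurable.aestronglyMeasurable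
      have := hη.measurable
      fun_prop
    · filter_upwards with x
      rw [norm_mul, Real.norm_eq_abs, abs_abs, norm_inv, norm_norm]
      gcongr
      exact hC x
  rw [← integrableOn_iff_integrable_of_support_subset (s := ball (0 : E3) R)]
  · exact h2
  · intro x hx
    apply hR
    apply subset_tsupport
    intro h
    apply hx
    simp [h]

/-- The weak equation. -/
lemma weak_equation (hα : 0 < α) (ha : 0 < a) (hc : Continuous ψ) (hcχ : Continuous χ)
    (hχ0 : χ 0 = 0)
    (hdχ : ∀ r, 0 < r → HasDerivAt χ (r ^ 2 * ((ψ r) ^ α - r⁻¹) * ψ r) r)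
    (hpos : ∀ r, 0 ≤ r → 0 < ψ r ∧ ψ r ≤ a)
    (hχ : ∀ r, 0 ≤ r → χ r ≤ 0 ∧ -(a * r ^ 2 / 2) ≤ χ r)
    (η : E3 → ℝ) (hη : ContDiff ℝ ∞ η) (hηc : HasCompactSupport η) :
    Integrable (fun x => inner ℝ (gradient η x) (GG χ x)) ∧
    Integrable (fun x => η x * ((ψ ‖x‖ ^ α - ‖x‖⁻¹) * ψ ‖x‖)) ∧
    (∫ x, inner ℝ (gradient η x) (GG χ x)) +
      ∫ x, η x * ((ψ ‖x‖ ^ α - ‖x‖⁻¹) * ψ ‖x‖) = 0 := by
  have hgc : Continuous (gradient η) := by
    unfold gradient
    exact (LinearIsometryEquiv.continuous _).comp (hη.continuous_fderiv (by simp))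
  have hgsupp : HasCompactSupport (gradient η) := by
    apply (hηc.fderiv (𝕜 := ℝ)).comp_left (g := (InnerProductSpace.toDual ℝ E3).symm)
    simp
  have hI1 : Integrable (fun x => inner ℝ (gradient η x) (GG χ x)) := by
    have h1 : Integrable (fun x => ‖gradient η x‖ * (a / 2)) :=
      ((hgc.norm.integrable_of_hasCompactSupport hgsupp.norm).mul_const _)
    refine h1.mono' ?_ ?_
    · exact (hgc.aestronglyMeasurable).inner (GG_meas hcχ).aestronglyMeasurable
    · filter_upwards with x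
      refine (norm_inner_le_norm _ _).trans ?_
      gcongr
      exact GG_bound ha.le hχ x
  have hψα : Continuous (fun r => ψ r ^ α) := hc.rpow_const (fun _ => Or.inr hα.le)
  have hI2 : Integrable (fun x => η x * ((ψ ‖x‖ ^ α - ‖x‖⁻¹) * ψ ‖x‖)) := by
    have h1 : Integrable (fun x => η x * (ψ ‖x‖ ^ α * ψ ‖x‖)) := by
      apply Continuous.integrable_of_hasCompactSupport
      · have := hη.continuous
        have h2 : Continuous (fun x : E3 => ψ ‖x‖ ^ α) := hψα.comp continuous_norm
        have h3 : Continuous (fun x : E3 => ψ ‖x‖) := hc.comp continuous_norm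
        fun_prop
      · exact hηc.mul_right
    have h2 : Integrable (fun x => η x * (‖x‖⁻¹ * ψ ‖x‖)) := by
      refine ((integrable_inv_norm_mul hη.continuous hηc).mul_const a).mono' ?_ ?_
      · apply Measurable.aestronglyMeasurable
        have := hη.continuous.measurable
        have := hc.measurable
        fun_prop
      · filter_upwards with x
        obtain ⟨h3, h4⟩ := hpos ‖x‖ (norm_nonneg _)
        rw [norm_mul, norm_mul, norm_inv, norm_norm, Real.norm_eq_abs, Real.norm_eq_abs,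
          abs_of_pos h3, mul_assoc]
        gcongr
    refine (h1.sub h2).congr ?_
    filter_upwards with x
    simp only [Pi.sub_apply]
    ring
  refine ⟨hI1, hI2, ?_⟩
  rw [← integral_add hI1 hI2]
  have hfr : Module.finrank ℝ E3 - 1 = 2 := by simp
  have hpol := polarF (fun x => inner ℝ (gradient η x) (GG χ x) +
    η x * ((ψ ‖x‖ ^ α - ‖x‖⁻¹) * ψ ‖x‖)) (hI1.add hI2)
  rw [hfr] at hpol
  rw [hpol]
  -- each ray contributes zero
  have hray : ∀ v : sphere (0 : E3) 1, ∫ r in Ioi (0:ℝ), r ^ 2 *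
      (inner ℝ (gradient η (r • (v : E3))) (GG χ (r • (v : E3))) +
        η (r • (v : E3)) * ((ψ ‖r • (v : E3)‖ ^ α - ‖r • (v : E3)‖⁻¹) * ψ ‖r • (v : E3)‖)) = 0 := by
    intro v
    have hv : ‖(v : E3)‖ = 1 := by simp
    set Dr : ℝ → ℝ := fun r => χ r * (fderiv ℝ η (r • (v : E3)) v) +
      η (r • (v : E3)) * (r ^ 2 * (ψ r ^ α * ψ r) - r * ψ r) with hDr
    have hDc : Continuous Dr := by
      have h1 := hη.continuous
      have h2 : Continuous (fun r : ℝ => fderiv ℝ η (r • (v : E3)) v) := by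
        have h3 := hη.continuous_fderiv (by simp)
        exact (h3.comp (by fun_prop)).clm_apply continuous_const
      fun_prop
    have hcs : ∀ f : E3 → ℝ, HasCompactSupport f →
        HasCompactSupport (fun r : ℝ => f (r • (v : E3))) := by
      intro f hf
      have hemb : IsClosedEmbedding (fun r : ℝ => r • (v : E3)) := by
        apply Isometry.isClosedEmbedding
        apply Isometry.of_dist_eq
        intro r s
        rw [dist_eq_norm, ← sub_smul, norm_smul, hv, mul_one, Real.dist_eq, Real.norm_eq_abs]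
      exact hf.comp_isClosedEmbedding hemb
    have hDs : HasCompactSupport Dr := by
      apply HasCompactSupport.add
      · apply HasCompactSupport.mul_left
        have h1 := hcs (fun x => fderiv ℝ η x v) (hηc.fderiv_apply (𝕜 := ℝ) (v : E3))
        exact h1
      · exact (hcs η hηc).mul_right
    have e1 : ∀ r ∈ Ioi (0:ℝ), r ^ 2 *
      (inner ℝ (gradient η (r • (v : E3))) (GG χ (r • (v : E3))) +
        η (r • (v : E3)) * ((ψ ‖r • (v : E3)‖ ^ α - ‖r • (v : E3)‖⁻¹) * ψ ‖r • (v : E3)‖)) = Dr r := by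
      intro r hr
      have hr' : (0:ℝ) < r := hr
      have hn : ‖r • (v : E3)‖ = r := by
        rw [norm_smul, hv, mul_one, Real.norm_of_nonneg hr'.le]
      rw [hn]
      unfold GG
      rw [hn, smul_smul, real_inner_smul_right]
      have h2 : inner ℝ (gradient η (r • (v : E3))) (v : E3) = fderiv ℝ η (r • (v : E3)) v := by
        unfold gradient
        rw [InnerProductSpace.toDual_symm_apply]
      rw [h2, hDr]
      field_simp
    rw [setIntegral_congr_fun measurableSet_Ioi e1]
    have h3 : ∀ r ∈ Ioi (0:ℝ), HasDerivAt (fun r => χ r * η (r • (v : E3))) (Dr r) r := by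
      intro r hr
      have hr' : (0:ℝ) < r := hr
      have h4 := hdχ r hr'
      have h5 : HasDerivAt (fun r : ℝ => η (r • (v : E3))) (fderiv ℝ η (r • (v : E3)) v) r := by
        have h6 : HasDerivAt (fun r : ℝ => r • (v : E3)) (v : E3) r := by
          simpa using (hasDerivAt_id r).smul_const (v : E3)
        have h7 := ((hη.differentiable (by simp)) (r • (v : E3))).hasFDerivAt
        exact h7.comp_hasDerivAt r h6
      have h8 := h4.mul h5
      refine h8.congr_deriv ?_
      rw [hDr]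
      field_simp
      ring
    have hlim : Tendsto (fun r => χ r * η (r • (v : E3))) atTop (𝓝 0) := by
      have h4 : HasCompactSupport (fun r => χ r * η (r • (v : E3))) := (hcs η hηc).mul_left
      have h5 := h4.is_zero_at_infty
      exact h5.mono_left atTop_le_cocompact
    rw [integral_Ioi_of_hasDerivAt_of_tendsto _ h3
      (hDc.integrable_of_hasCompactSupport hDs).integrableOn hlim]
    · simp [hχ0]
    · have := hη.continuous
      apply Continuous.continuousWithinAt
      fun_prop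
  rw [integral_congr_ae (Eventually.of_forall hray)]
  simp

end

end Pool.Agent.N261.TF
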